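import Pool.Agent.U211.SPH.IntA

/-!
# Estimates for the mollification of a map which satisfies a reflection inequality
-/

set_option autoImplicit false

open Set Filter Topology Metric Function MeasureTheory
open scoped Manifold ContDiff

noncomputable section

namespace Pool.Agent.U211.LK

open Pool.Agent.Y522 Pool.Agent.U211.BL Pool.Agent.U211.BLV Pool.Agent.U211.SPH

variable {n d : ℕ} {r₀ : ℝ} (K : Ker n r₀)

/-- mollification with radius one -/
def GF (f : E n → E d) (v : E n) : E d := ∫ s, K.k s • f (v + s)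

/-- its derivative -/
def DF (f : E n → E d) (w v : E n) : E d := ∫ s, (K.g s * inner ℝ s w) • f (v + s)

/-- the reflection inequality on the ball of radius `B` -/
def RI (f : E n → E d) (w : E n) (e : E d) (S T P B : ℝ) : Prop :=
  ∀ z : E n, ‖z‖ ≤ B → 2 * (S * P * inner ℝ z w - T * (‖z‖ ^ 2 + P ^ 2) / 2) ≤
    inner ℝ (f z - f (rf w z)) e

variable {f : E n → E d} {w : E n} {e : E d} {S T P B : ℝ}

theorem norm_add_le' {w s : E n} (hw : ‖w‖ = 1) {τ : ℝ} (hs : ‖s‖ ≤ 1) (hB : |τ| + 1 ≤ B) :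
    ‖τ • w + s‖ ≤ B := by
  refine (norm_add_le _ _).trans ?_
  rw [norm_smul, hw, mul_one, Real.norm_eq_abs]
  linarith

theorem big (hf : Continuous f) (hw : ‖w‖ = 1) (hT : 0 ≤ T) (h : RI f w e S T P B) {μ : ℝ}
    (hB : |μ| + 1 ≤ B) :
    2 * (S * P * μ - T * (μ ^ 2 + 1 + P ^ 2) / 2) ≤
      inner ℝ (GF K f (μ • w) - GF K f (-(μ • w))) e := by
  have hrfc : Continuous (rf w) := (rfE w hw).continuous
  have h1 : GF K f (-(μ • w)) = ∫ s, K.k s • f (rf w (μ • w + s)) := by
    unfold GF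
    rw [← integral_rf hw (fun s => K.k s • f (-(μ • w) + s))]
    congr 1
    funext s
    rw [K.rad _ _ (rf_norm hw s), ← rf_smul_w hw, ← rf_add]
  have hc1 : Continuous fun s => f (μ • w + s) := hf.comp (by fun_prop)
  have hc2 : Continuous fun s => f (rf w (μ • w + s)) := hf.comp (hrfc.comp (by fun_prop))
  have h2 : GF K f (μ • w) - GF K f (-(μ • w)) =
      ∫ s, K.k s • (f (μ • w + s) - f (rf w (μ • w + s))) := by
    rw [h1]
    unfold GF
    rw [← integral_sub]
    · congr 1
      funext s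
      rw [smul_sub]
    · exact BLV.k_smul_integrable K hc1.continuousOn
    · exact BLV.k_smul_integrable K hc2.continuousOn
  rw [h2]
  have hint := BLV.k_smul_integrable K (f := fun s => f (μ • w + s) - f (rf w (μ • w + s)))
    (hc1.sub hc2).continuousOn
  rw [real_inner_comm, ← integral_inner (𝕜 := ℝ) hint e]
  obtain ⟨C0, hC0⟩ : ∃ C0, C0 = 2 * (S * P * μ - T * (μ ^ 2 + 1 + P ^ 2) / 2) := ⟨_, rfl⟩
  obtain ⟨C1, hC1⟩ : ∃ C1, C1 = 2 * (S * P - T * μ) := ⟨_, rfl⟩
  rw [← hC0]
  have hi1 : Integrable fun s => K.k s * inner ℝ s w := by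
    have := BLV.k_smul_integrable K (f := fun s : E n => (inner ℝ s w : ℝ) • w) (by fun_prop)
    have h2 := this.inner_const (𝕜 := ℝ) w
    refine h2.congr (Eventually.of_forall fun s => ?_)
    simp only [inner_smul_left, real_inner_self_eq_norm_sq, hw, conj_trivial]
    ring
  have hi2 : Integrable fun s => K.k s * C0 + C1 * (K.k s * inner ℝ s w) :=
    (K.integrable.mul_const _).add (hi1.const_mul _)
  have h3 : ∫ s, (K.k s * C0 + C1 * (K.k s * inner ℝ s w)) = C0 := by
    rw [integral_add (K.integrable.mul_const _) (hi1.const_mul _), integral_mul_const, K.int,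
      integral_const_mul, k_odd, mul_zero, one_mul, add_zero]
  calc C0 = ∫ s, (K.k s * C0 + C1 * (K.k s * inner ℝ s w)) := h3.symm
    _ ≤ _ := by
      apply integral_mono hi2 (hint.const_inner (𝕜 := ℝ) e)
      intro s
      show K.k s * C0 + C1 * (K.k s * inner ℝ s w) ≤
        inner ℝ e (K.k s • (f (μ • w + s) - f (rf w (μ • w + s))))
      rw [inner_smul_right, real_inner_comm _ e]
      by_cases hs : K.k s = 0
      · rw [hs]
        simp
      have hs0 : ‖s‖ ≤ 1 := (K.lt hs).le
      have hs1 : ‖s‖ ^ 2 ≤ 1 := by nlinarith [norm_nonneg s]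
      have h4 := h (μ • w + s) (norm_add_le' hw hs0 hB)
      have hww : inner ℝ w w = (1 : ℝ) := by rw [real_inner_self_eq_norm_sq, hw, one_pow]
      have hws : inner ℝ w s = inner ℝ s w := real_inner_comm _ _
      have h5 : 2 * (S * P * inner ℝ (μ • w + s) w - T * (‖μ • w + s‖ ^ 2 + P ^ 2) / 2) =
          C0 + C1 * inner ℝ s w + T * (1 - ‖s‖ ^ 2) := by
        rw [hC0, hC1]
        simp only [← real_inner_self_eq_norm_sq, inner_add_left, inner_add_right,
          inner_smul_left, inner_smul_right, hww, hws, conj_trivial]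
        ring
      rw [h5] at h4
      have h6 : 0 ≤ T * (1 - ‖s‖ ^ 2) := mul_nonneg hT (by linarith)
      have h9 : C0 + C1 * inner ℝ s w ≤ inner ℝ (f (μ • w + s) - f (rf w (μ • w + s))) e := by
        linarith
      calc K.k s * C0 + C1 * (K.k s * inner ℝ s w) = K.k s * (C0 + C1 * inner ℝ s w) := by ring
        _ ≤ _ := mul_le_mul_of_nonneg_left h9 (K.nonneg s)

theorem small (hr0 : 0 < r₀) (hf : Continuous f) (hw : ‖w‖ = 1) (hT : 0 ≤ T)
    (h : RI f w e S T P B) {τ : ℝ} (hBτ : |τ| + 1 ≤ B) :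
    2 * S * P - T * (P ^ 2 + 1 + τ ^ 2) * (Real.sqrt n / r₀) ≤
      inner ℝ (DF K f w (τ • w) + DF K f w (-(τ • w))) e := by
  have hrfc : Continuous (rf w) := (rfE w hw).continuous
  have hfc : ∀ v, Continuous fun s => f (v + s) := fun v => hf.comp (by fun_prop)
  have hfr : ∀ v, Continuous fun s => f (rf w (v + s)) := fun v =>
    hf.comp (hrfc.comp (by fun_prop))
  have hDD : ∀ v, inner ℝ (DF K f w v) e =
      ∫ s, K.g s * (inner ℝ s w * inner ℝ (f (v + s)) e) := by
    intro v
    have h1 := BLV.g_smul_integrable K (hfc v).continuousOn w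
    unfold DF
    rw [real_inner_comm, ← integral_inner (𝕜 := ℝ) h1 e]
    congr 1
    funext s
    rw [inner_smul_right, real_inner_comm _ e]
    ring
  have hI1 : ∀ v, Integrable fun s => K.g s * (inner ℝ s w * inner ℝ (f (v + s)) e) := by
    intro v
    apply K.g_mul_integrable
    exact ((continuous_id.inner continuous_const).mul ((hfc v).inner continuous_const)).continuousOn
  have hI2 : ∀ v, Integrable fun s => K.g s * (inner ℝ s w * inner ℝ (f (rf w (v + s))) e) := by
    intro v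
    apply K.g_mul_integrable
    exact ((continuous_id.inner continuous_const).mul ((hfr v).inner continuous_const)).continuousOn
  have hrefl : ∀ v, ∫ s, K.g s * (inner ℝ s w * inner ℝ (f (rf w v + s)) e) =
      -∫ s, K.g s * (inner ℝ s w * inner ℝ (f (rf w (v + s))) e) := by
    intro v
    rw [← integral_rf hw, ← integral_neg]
    congr 1
    funext s
    rw [K.grad (rf w s) s (rf_norm hw s), rf_inner hw, ← rf_add]
    ring
  have hvm : rf w (τ • w) = -(τ • w) := rf_smul_w hw τ
  have hvp : rf w (-(τ • w)) = τ • w := by rw [← hvm, rf_rf hw]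
  have r1 := hrefl (τ • w)
  have r2 := hrefl (-(τ • w))
  rw [hvm] at r1
  rw [hvp] at r2
  obtain ⟨I, hI⟩ : ∃ I : ℝ, I = inner ℝ (DF K f w (τ • w) + DF K f w (-(τ • w))) e := ⟨_, rfl⟩
  have hI' := hI
  rw [inner_add_left, hDD, hDD] at hI'
  obtain ⟨Δ, hΔ⟩ : ∃ Δ : E n → E d, Δ = fun s =>
    (f (τ • w + s) - f (rf w (τ • w + s))) + (f (-(τ • w) + s) - f (rf w (-(τ • w) + s))) :=
    ⟨_, rfl⟩
  have hΔc : Continuous Δ := by
    rw [hΔ]
    exact ((hfc _).sub (hfr _)).add ((hfc _).sub (hfr _))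
  have h2I : 2 * I = ∫ s, K.g s * (inner ℝ s w * inner ℝ (Δ s) e) := by
    have h1 : ∀ s, K.g s * (inner ℝ s w * inner ℝ (Δ s) e) =
        (K.g s * (inner ℝ s w * inner ℝ (f (τ • w + s)) e) -
          K.g s * (inner ℝ s w * inner ℝ (f (rf w (τ • w + s))) e)) +
        (K.g s * (inner ℝ s w * inner ℝ (f (-(τ • w) + s)) e) -
          K.g s * (inner ℝ s w * inner ℝ (f (rf w (-(τ • w) + s))) e)) := by
      intro s
      rw [hΔ]
      simp only [inner_add_left, inner_sub_left]
      ring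
    have hI3 : ∀ v, Integrable fun s => K.g s * (inner ℝ s w * inner ℝ (f (v + s)) e) -
        K.g s * (inner ℝ s w * inner ℝ (f (rf w (v + s))) e) := fun v => (hI1 v).sub (hI2 v)
    simp only [h1]
    rw [integral_add (hI3 (τ • w)) (hI3 (-(τ • w))), integral_sub (hI1 _) (hI2 _),
      integral_sub (hI1 _) (hI2 _)]
    linarith
  have hodd : ∀ s, Δ (rf w s) = -Δ s := by
    intro s
    rw [hΔ]
    show (f (τ • w + rf w s) - f (rf w (τ • w + rf w s))) +
      (f (-(τ • w) + rf w s) - f (rf w (-(τ • w) + rf w s))) =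
      -((f (τ • w + s) - f (rf w (τ • w + s))) + (f (-(τ • w) + s) - f (rf w (-(τ • w) + s))))
    have a1 : τ • w + rf w s = rf w (-(τ • w) + s) := by rw [rf_add, hvp]
    have a2 : -(τ • w) + rf w s = rf w (τ • w + s) := by rw [rf_add, hvm]
    rw [a1, a2, rf_rf hw, rf_rf hw]
    generalize f (rf w (-(τ • w) + s)) = A1
    generalize f (rf w (τ • w + s)) = A2
    generalize f (-(τ • w) + s) = A3
    generalize f (τ • w + s) = A4
    abel
  obtain ⟨Q, hQ⟩ : ∃ Q : ℝ, Q = T * (P ^ 2 + 1 + τ ^ 2) := ⟨_, rfl⟩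
  have hQ0 : 0 ≤ Q := by
    rw [hQ]
    positivity
  have hpt0 : ∀ s : E n, ‖s‖ ≤ 1 → 2 * (2 * S * P * inner ℝ s w - Q) ≤ inner ℝ (Δ s) e := by
    intro s hs
    have h1 := h (τ • w + s) (norm_add_le' hw hs hBτ)
    have h2 := h (-(τ • w) + s) (by
      rw [← neg_smul]
      exact norm_add_le' hw hs (by rw [abs_neg]; exact hBτ))
    rw [hΔ]
    show _ ≤ inner ℝ ((f (τ • w + s) - f (rf w (τ • w + s))) +
      (f (-(τ • w) + s) - f (rf w (-(τ • w) + s)))) e
    rw [inner_add_left]
    refine le_trans ?_ (add_le_add h1 h2)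
    have hs2 : ‖s‖ ^ 2 ≤ 1 := by nlinarith [norm_nonneg s]
    have hww : inner ℝ w w = (1 : ℝ) := by rw [real_inner_self_eq_norm_sq, hw, one_pow]
    have hws : inner ℝ w s = inner ℝ s w := real_inner_comm _ _
    have e1 : ‖τ • w + s‖ ^ 2 = τ ^ 2 + 2 * τ * inner ℝ s w + ‖s‖ ^ 2 := by
      simp only [← real_inner_self_eq_norm_sq, inner_add_left, inner_add_right,
        inner_smul_left, inner_smul_right, hww, hws, conj_trivial]
      ring
    have e2 : ‖-(τ • w) + s‖ ^ 2 = τ ^ 2 - 2 * τ * inner ℝ s w + ‖s‖ ^ 2 := by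
      simp only [← real_inner_self_eq_norm_sq, inner_add_left, inner_add_right, inner_neg_left,
        inner_neg_right, inner_smul_left, inner_smul_right, hww, hws, conj_trivial]
      ring
    have e3 : inner ℝ (τ • w + s) w = τ + inner ℝ s w := by
      rw [inner_add_left, inner_smul_left, hww]
      simp
    have e4 : inner ℝ (-(τ • w) + s) w = -τ + inner ℝ s w := by
      rw [inner_add_left, inner_neg_left, inner_smul_left, hww]
      simp
    rw [e1, e2, e3, e4, hQ]
    nlinarith [mul_nonneg hT (sub_nonneg.2 hs2)]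
  have hpt : ∀ s, 2 * (2 * S * P * (K.g s * (inner ℝ s w) ^ 2) -
      Q * (K.g s * |inner ℝ s w|)) ≤ K.g s * (inner ℝ s w * inner ℝ (Δ s) e) := by
    intro s
    by_cases hg : K.g s = 0
    · rw [hg]
      simp
    have hs : ‖s‖ ≤ 1 := by
      by_contra hc
      exact hg (K.gzero s (not_le.1 hc))
    have h1 : 2 * (2 * S * P * (K.g s * (inner ℝ s w) ^ 2) -
        Q * (K.g s * |inner ℝ s w|)) = K.g s * (|inner ℝ s w| *
          (2 * (2 * S * P * |inner ℝ s w| - Q))) := by
      have : (inner ℝ s w : ℝ) ^ 2 = |inner ℝ s w| ^ 2 := (sq_abs _).symm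
      rw [this]
      ring
    rw [h1]
    apply mul_le_mul_of_nonneg_left _ (K.gnonneg s)
    rcases le_total 0 (inner ℝ s w : ℝ) with hσ | hσ
    · rw [abs_of_nonneg hσ]
      exact mul_le_mul_of_nonneg_left (hpt0 s hs) hσ
    · rw [abs_of_nonpos hσ]
      have h3 : (inner ℝ s w : ℝ) * inner ℝ (Δ s) e = (-inner ℝ s w) * inner ℝ (Δ (rf w s)) e := by
        rw [hodd, inner_neg_left]
        ring
      rw [h3]
      apply mul_le_mul_of_nonneg_left _ (by linarith)
      rw [← rf_inner hw]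
      exact hpt0 _ (by rw [rf_norm hw]; exact hs)
  have hJ1 : Integrable fun s => K.g s * (inner ℝ s w : ℝ) ^ 2 := K.g_mul_integrable (by fun_prop)
  have hJ2 : Integrable fun s => K.g s * |(inner ℝ s w : ℝ)| := K.g_mul_integrable (by fun_prop)
  have hJ3 : Integrable fun s => K.g s * (inner ℝ s w * inner ℝ (Δ s) e) := by
    apply K.g_mul_integrable
    exact ((continuous_id.inner continuous_const).mul (hΔc.inner continuous_const)).continuousOn
  have hle := integral_mono (((hJ1.const_mul (2 * S * P)).sub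
    (hJ2.const_mul Q)).const_mul 2) hJ3 hpt
  rw [← h2I] at hle
  have hcomp : ∫ s, 2 * (2 * S * P * (K.g s * (inner ℝ s w) ^ 2) -
      Q * (K.g s * |inner ℝ s w|)) = 2 * (2 * S * P - Q * ∫ s, K.g s * |inner ℝ s w|) := by
    rw [integral_const_mul, integral_sub (hJ1.const_mul _) (hJ2.const_mul _), integral_const_mul,
      integral_const_mul, K.int_sq, hw, one_pow, mul_one]
  have hR := K.int_abs_le hr0 hw
  have h6 := mul_le_mul_of_nonneg_left hR hQ0
  have h7 : 2 * (2 * S * P - Q * ∫ s, K.g s * |inner ℝ s w|) ≤ 2 * I := by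
    rw [← hcomp]
    exact hle
  rw [← hI, ← hQ]
  linarith

end Pool.Agent.U211.LK
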