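import Pool.Agent.U211.LK.Inj

/-!
# The isotopy, compact support
-/

set_option autoImplicit false

open Set Filter Topology Metric Function MeasureTheory
open scoped Manifold ContDiff

noncomputable section

namespace Pool.Agent.U211.LK

open Pool.Agent.Y522 Pool.Agent.U211.BL Pool.Agent.U211.BLV Pool.Agent.U211.ISO

variable {n d : ℕ} {r₀ : ℝ} (K : Ker n r₀)

/-- the mollification with radius `t` -/
def FV (F : E n → E d) (t : ℝ) (x : E n) : E d := ∫ s, K.k s • F (x + t • s)

theorem FV_zero (F : E n → E d) (x : E n) : FV K F 0 x = F x := by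
  unfold FV
  simp only [zero_smul, add_zero]
  rw [integral_smul_const, K.int, one_smul]

theorem FV_lin (A : E n →L[ℝ] E d) (t : ℝ) (x : E n) : FV K (fun y => A y) t x = A x := by
  have h := FM_id K t x
  unfold FM at h
  unfold FV
  have h1 : ∀ s, K.k s • A (x + t • s) = A (K.k s • (x + t • s)) := by
    intro s
    rw [map_smul]
  simp only [h1]
  have h2 : Integrable (fun s => K.k s • (x + t • s)) :=
    BLV.k_smul_integrable K (f := fun s => x + t • s) (by fun_prop)
  rw [ContinuousLinearMap.integral_comp_comm _ h2, h]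

theorem FV_split {F H : E n → E d} {A : E n →L[ℝ] E d} (hH : Continuous H)
    (h : ∀ x, F x = A x + H x) (t : ℝ) (x : E n) : FV K F t x = A x + FV K H t x := by
  rw [← FV_lin K A t x]
  unfold FV
  rw [← integral_add]
  · congr 1
    funext s
    rw [h, smul_add]
  · exact BLV.k_smul_integrable K (f := fun s => A (x + t • s)) (by fun_prop)
  · exact BLV.k_smul_integrable K (f := fun s => H (x + t • s))
      (hH.comp (by fun_prop : Continuous fun s => x + t • s)).continuousOn

theorem FV_norm {H : E n → E d} {C : ℝ} (hC : ∀ x, ‖H x‖ ≤ C) (t : ℝ) (x : E n) :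
    ‖FV K H t x‖ ≤ C := by
  unfold FV
  have h1 : ‖∫ s, K.k s • H (x + t • s)‖ ≤ ∫ s, K.k s * C := by
    apply norm_integral_le_of_norm_le (K.integrable.mul_const C)
    refine Eventually.of_forall fun s => ?_
    rw [norm_smul, Real.norm_of_nonneg (K.nonneg s)]
    exact mul_le_mul_of_nonneg_left (hC _) (K.nonneg s)
  rwa [integral_mul_const, K.int, one_mul] at h1

theorem FV_deriv (hr0 : 0 < r₀) {H : E n → E d} (hH : Continuous H) {C t : ℝ}
    (hC : ∀ x, ‖H x‖ ≤ C) (ht : 0 < t) (x : E n) :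
    ∃ D : E n →L[ℝ] E d, HasFDerivAt (FV K H t) D x ∧ ‖D‖ ≤ t⁻¹ * (Real.sqrt n / r₀ * C) := by
  obtain ⟨D, hD, hDw⟩ := BLV.moll_hasFDerivAt K hH.locallyIntegrable ht x
  have hC0 : 0 ≤ C := (norm_nonneg _).trans (hC 0)
  refine ⟨D, hD, ContinuousLinearMap.opNorm_le_of_unit_norm (by positivity) fun w hw => ?_⟩
  rw [hDw w, norm_smul, Real.norm_of_nonneg (inv_nonneg.2 ht.le)]
  apply mul_le_mul_of_nonneg_left _ (inv_nonneg.2 ht.le)
  have h6 : ‖∫ s, (K.g s * inner ℝ s w) • H (x + t • s)‖ ≤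
      ∫ s, K.g s * |inner ℝ s w| * C := by
    apply norm_integral_le_of_norm_le
    · exact (K.g_mul_integrable (f := fun s => |(inner ℝ s w : ℝ)|) (by fun_prop)).mul_const C
    · refine Eventually.of_forall fun s => ?_
      rw [norm_smul, Real.norm_eq_abs, abs_mul, abs_of_nonneg (K.gnonneg s)]
      exact mul_le_mul_of_nonneg_left (hC _) (mul_nonneg (K.gnonneg s) (abs_nonneg _))
  rw [integral_mul_const] at h6
  exact h6.trans (mul_le_mul_of_nonneg_right (K.int_abs_le hr0 hw) hC0)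

/-- an injective immersion -/
def Emb (f : E n → E d) : Prop := Injective f ∧ ∀ x w : E n, w ≠ 0 → fderiv ℝ f x w ≠ 0

theorem unit_of_ne {w : E n} (hw : w ≠ 0) : ‖(‖w‖⁻¹ • w)‖ = 1 := by
  rw [norm_smul, norm_inv, norm_norm, inv_mul_cancel₀ (norm_pos_iff.2 hw).ne']

/-- a lower bound for the derivative -/
theorem deriv_lower' {F : E n → E d} {D : E n →L[ℝ] E d} {x : E n} {a r : ℝ}
    (hD : HasFDerivAt F D x) (ha : 0 < a) (hr : 0 < r)
    (h : ∀ p q : E n, ‖p - x‖ ≤ r → ‖q - x‖ ≤ r → a * ‖p - q‖ ≤ ‖F p - F q‖) {w : E n}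
    (hw : ‖w‖ = 1) : D w ≠ 0 := by
  intro h0
  have h1 := hD.isLittleO.def (c := a / 2) (by positivity)
  obtain ⟨ε, hε, h2⟩ := Metric.eventually_nhds_iff.1 h1
  obtain ⟨s, hs⟩ : ∃ s, s = min (ε / 2) r := ⟨_, rfl⟩
  have hs0 : 0 < s := by
    rw [hs]
    exact lt_min (by positivity) hr
  have hs1 : s ≤ ε / 2 := by
    rw [hs]
    exact min_le_left _ _
  have hs2 : s ≤ r := by
    rw [hs]
    exact min_le_right _ _
  have hn : ‖(x + s • w) - x‖ = s := by
    rw [add_sub_cancel_left, norm_smul, hw, mul_one, Real.norm_of_nonneg hs0.le]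
  have h3 := h2 (y := x + s • w) (by rw [dist_eq_norm, hn]; linarith)
  have h4 := h (x + s • w) x (by rw [hn]; exact hs2) (by rw [sub_self, norm_zero]; exact hr.le)
  rw [hn] at h3 h4
  have h5 : D ((x + s • w) - x) = 0 := by
    rw [add_sub_cancel_left, map_smul, h0, smul_zero]
  rw [h5, sub_zero] at h3
  nlinarith

section

variable {F H : E n → E d} {A : E n →L[ℝ] E d} {ρ δ r : ℝ}

theorem far (hA : ∀ x, ‖A x‖ = ‖x‖) (hH : Continuous H) (h : ∀ x, F x = A x + H x)
    (hcl : ∀ x, ‖H x‖ ≤ δ * r) {t : ℝ} {x y : E n} (hxy : FV K F t x = FV K F t y) :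
    ‖x - y‖ ≤ 2 * (δ * r) := by
  rw [FV_split K hH h, FV_split K hH h] at hxy
  have h1 : A (x - y) = FV K H t y - FV K H t x := by
    rw [map_sub, sub_eq_sub_iff_add_eq_add, hxy, add_comm]
  rw [← hA, h1]
  refine (norm_sub_le _ _).trans ?_
  linarith [FV_norm K hcl t x, FV_norm K hcl t y]

theorem mid (hr0 : 0 < r₀) (hA : ∀ x, ‖A x‖ = ‖x‖) (hF : Continuous F) (hH : Continuous H)
    (h : ∀ x, F x = A x + H x) (hcl : ∀ x, ‖H x‖ ≤ δ * r) (hr : 0 < r) (hρ : 1 ≤ ρ)
    (hd : ∀ x : E n, ∃ a > 0, ∀ p q : E n, ‖p - x‖ ≤ (1 + δ) * r → ‖q - x‖ ≤ (1 + δ) * r →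
      a * ‖p - q‖ ≤ ‖F p - F q‖ ∧ ‖F p - F q‖ ≤ ρ * (a * ‖p - q‖))
    (hN : ∀ m > 0, NC n r₀ m (ρ * m)) {t : ℝ} (ht : 0 < t) (htr : t ≤ r) : Emb (FV K F t) := by
  have hδ0 : 0 ≤ δ * r := (norm_nonneg _).trans (hcl 0)
  have hB : t ≤ (1 + δ) * r := by nlinarith
  -- rescaling
  have hBd : ∀ c : E n, ∃ m > 0, Bd (fun z => F (c + t • z)) m (ρ * m) ((1 + δ) * r / t) := by
    intro c
    obtain ⟨a, ha, hc⟩ := hd c
    refine ⟨t * a, by positivity, fun p q hp hq => ?_⟩
    have hnorm : ∀ p : E n, ‖p‖ ≤ (1 + δ) * r / t → ‖c + t • p - c‖ ≤ (1 + δ) * r := by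
      intro p hp
      rw [add_sub_cancel_left, norm_smul, Real.norm_of_nonneg ht.le, mul_comm]
      exact (le_div_iff₀ ht).1 hp
    have h1 := hc (c + t • p) (c + t • q) (hnorm p hp) (hnorm q hq)
    have h2 : ‖c + t • p - (c + t • q)‖ = t * ‖p - q‖ := by
      rw [add_sub_add_left_eq_sub, ← smul_sub, norm_smul, Real.norm_of_nonneg ht.le]
    rw [h2] at h1
    constructor
    · calc t * a * ‖p - q‖ = a * (t * ‖p - q‖) := by ring
        _ ≤ _ := h1.1
    · calc _ ≤ _ := h1.2
        _ = ρ * (t * a) * ‖p - q‖ := by ring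
  have hres : ∀ c v : E n, GF K (fun z => F (c + t • z)) v = FV K F t (c + t • v) := by
    intro c v
    unfold GF FV
    congr 1
    funext s
    show K.k s • F (c + t • (v + s)) = K.k s • F (c + t • v + t • s)
    rw [smul_add, add_assoc]
  have hcf : ∀ c : E n, Continuous fun z => F (c + t • z) := fun c => hF.comp (by fun_prop)
  constructor
  · intro x y hxy
    by_contra hne
    have hfar := far K hA hH h hcl hxy
    obtain ⟨c, hc⟩ : ∃ c, c = (1 / 2 : ℝ) • (x + y) := ⟨_, rfl⟩
    have hpos : 0 < ‖x - y‖ := norm_pos_iff.2 (sub_ne_zero.2 hne)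
    obtain ⟨μ, hμ⟩ : ∃ μ, μ = ‖x - y‖ / 2 / t := ⟨_, rfl⟩
    have hμ0 : 0 < μ := by
      rw [hμ]
      positivity
    obtain ⟨w, hw⟩ : ∃ w, w = ‖x - y‖⁻¹ • (x - y) := ⟨_, rfl⟩
    have hw1 : ‖w‖ = 1 := by
      rw [hw]
      exact unit_of_ne (sub_ne_zero.2 hne)
    have hvw : t • (μ • w) = (1 / 2 : ℝ) • (x - y) := by
      rw [hw, hμ, smul_smul, smul_smul]
      congr 1
      field_simp
    have hx : c + t • (μ • w) = x := by
      rw [hvw, hc, ← smul_add]
      rw [show x + y + (x - y) = (2 : ℝ) • x by rw [two_smul]; abel, smul_smul]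
      norm_num
    have hy : c + t • (-(μ • w)) = y := by
      rw [smul_neg, hvw, hc, ← sub_eq_add_neg, ← smul_sub]
      rw [show x + y - (x - y) = (2 : ℝ) • y by rw [two_smul]; abel, smul_smul]
      norm_num
    obtain ⟨m, hm, hbd⟩ := hBd c
    refine inj K hr0 (hcf c) hm (le_mul_of_one_le_left hm.le hρ) hbd (hN m hm) hw1 hμ0 ?_ ?_
    · rw [le_div_iff₀ ht, hμ]
      have : (‖x - y‖ / 2 / t + 1) * t = ‖x - y‖ / 2 + t := by field_simp
      rw [this]
      linarith
    · rw [hres, hres, hx, hy]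
      exact hxy
  · intro x w hw0 h0
    obtain ⟨D, hD, hDw⟩ := BLV.moll_hasFDerivAt K hF.locallyIntegrable ht x
    have hD' : HasFDerivAt (FV K F t) D x := hD
    rw [hD'.fderiv] at h0
    have h1 : D (‖w‖⁻¹ • w) = 0 := by rw [map_smul, h0, smul_zero]
    rw [hDw] at h1
    have h2 := (smul_eq_zero.1 h1).resolve_left (inv_ne_zero ht.ne')
    obtain ⟨m, hm, hbd⟩ := hBd x
    refine imm K hr0 (hcf x) hm (le_mul_of_one_le_left hm.le hρ) hbd ?_ (hN m hm) (unit_of_ne hw0) ?_
    · rw [le_div_iff₀ ht, one_mul]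
      exact hB
    · unfold DF
      simp only [zero_add]
      exact h2

theorem last (hr0 : 0 < r₀) (hA : ∀ x, ‖A x‖ = ‖x‖) (hH : Continuous H)
    (hcl : ∀ x, ‖H x‖ ≤ δ * r) (hr : 0 < r) (hδ : δ * Real.sqrt n < r₀) {σ : ℝ} (h0 : 0 ≤ σ)
    (h1 : σ ≤ 1) : Emb (fun x => A x + (1 - σ) • FV K H r x) := by
  obtain ⟨L, hL⟩ : ∃ L, L = r⁻¹ * (Real.sqrt n / r₀ * (δ * r)) := ⟨_, rfl⟩
  have hδ0 : 0 ≤ δ * r := (norm_nonneg _).trans (hcl 0)
  have hL0 : 0 ≤ L := by
    rw [hL]
    positivity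
  have hL1 : L < 1 := by
    have h2 : L = δ * Real.sqrt n / r₀ := by
      rw [hL]
      field_simp
    rw [h2, div_lt_one hr0]
    exact hδ
  have hder := fun x => FV_deriv K hr0 hH hcl hr x
  rw [← hL] at hder
  constructor
  · intro x y hxy
    have h2 := convex_univ.norm_image_sub_le_of_norm_fderiv_le (f := FV K H r) (C := L)
      (fun z _ => by
        obtain ⟨D, hD, _⟩ := hder z
        exact hD.differentiableAt)
      (fun z _ => by
        obtain ⟨D, hD, hn⟩ := hder z
        rw [hD.fderiv]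
        exact hn) (mem_univ x) (mem_univ y)
    have h3 : A (x - y) = (1 - σ) • (FV K H r y - FV K H r x) := by
      have h4 : A x + (1 - σ) • FV K H r x = A y + (1 - σ) • FV K H r y := hxy
      rw [map_sub, smul_sub, sub_eq_sub_iff_add_eq_add, h4, add_comm]
    have h5 : ‖x - y‖ ≤ L * ‖x - y‖ := by
      calc ‖x - y‖ = ‖A (x - y)‖ := (hA _).symm
        _ = (1 - σ) * ‖FV K H r y - FV K H r x‖ := by
            rw [h3, norm_smul, Real.norm_of_nonneg (by linarith)]
        _ ≤ 1 * (L * ‖y - x‖) := mul_le_mul (by linarith) h2 (norm_nonneg _) zero_le_one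
        _ = L * ‖x - y‖ := by rw [one_mul, norm_sub_rev]
    by_contra hne
    have hpos : 0 < ‖x - y‖ := norm_pos_iff.2 (sub_ne_zero.2 hne)
    nlinarith
  · intro x w hw hw0
    obtain ⟨D, hD, hn⟩ := hder x
    have h2 : HasFDerivAt (fun x => A x + (1 - σ) • FV K H r x) (A + (1 - σ) • D) x :=
      A.hasFDerivAt.add (hD.const_smul (1 - σ))
    rw [h2.fderiv] at hw0
    have h3 : A w = -((1 - σ) • D w) := by
      have h4 : A w + (1 - σ) • D w = 0 := hw0
      exact eq_neg_of_add_eq_zero_left h4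
    have hpos : 0 < ‖w‖ := norm_pos_iff.2 hw
    have h5 : ‖w‖ ≤ L * ‖w‖ := by
      calc ‖w‖ = ‖A w‖ := (hA w).symm
        _ = (1 - σ) * ‖D w‖ := by
            rw [h3, norm_neg, norm_smul, Real.norm_of_nonneg (by linarith)]
        _ ≤ 1 * (L * ‖w‖) := by
            apply mul_le_mul (by linarith) _ (norm_nonneg _) zero_le_one
            exact (D.le_opNorm w).trans (mul_le_mul_of_nonneg_right hn (norm_nonneg _))
        _ = L * ‖w‖ := one_mul _
    nlinarith

include K in
/-- **The isotopy.** -/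
theorem exists_isotopy (hr0 : 0 < r₀) (hA : ∀ x, ‖A x‖ = ‖x‖) (hF : ContDiff ℝ ∞ F) {R : ℝ}
    (hR : ∀ x, R ≤ ‖x‖ → F x = A x) (hcl : ∀ x, ‖F x - A x‖ ≤ δ * r) (hr : 0 < r) (hρ : 1 ≤ ρ)
    (hd : ∀ x : E n, ∃ a > 0, ∀ p q : E n, ‖p - x‖ ≤ (1 + δ) * r → ‖q - x‖ ≤ (1 + δ) * r →
      a * ‖p - q‖ ≤ ‖F p - F q‖ ∧ ‖F p - F q‖ ≤ ρ * (a * ‖p - q‖))
    (hN : ∀ m > 0, NC n r₀ m (ρ * m)) (hδ : δ * Real.sqrt n < r₀) :
    ∃ k : ℝ × E n → E d, ContDiff ℝ ∞ k ∧ (∀ x, k (0, x) = A x) ∧ (∀ x, k (1, x) = F x) ∧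
      (∀ t x, R + r ≤ ‖x‖ → k (t, x) = A x) ∧ ∀ t, Emb (fun x => k (t, x)) := by
  obtain ⟨H, hHd⟩ : ∃ H : E n → E d, H = fun x => F x - A x := ⟨_, rfl⟩
  have hHs : ContDiff ℝ ∞ H := by
    rw [hHd]
    exact hF.sub A.contDiff
  have hH : Continuous H := hHs.continuous
  have hFH : ∀ x, F x = A x + H x := by
    intro x
    rw [hHd]
    simp
  have hcl' : ∀ x, ‖H x‖ ≤ δ * r := by
    intro x
    rw [hHd]
    exact hcl x
  have hδ0 : 0 ≤ δ * r := (norm_nonneg _).trans (hcl' 0)
  refine ⟨fun q => A q.2 + (1 - sg q.1) • FV K H (th r q.1) q.2, ?_, ?_, ?_, ?_, ?_⟩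
  · have h1 : ContDiff ℝ ∞ (fun q : ℝ × E n => FV K H (th r q.1) q.2) :=
      (BLV.moll_joint K hHs).comp (contDiff_snd.prodMk ((th_smooth r).comp contDiff_fst))
    have h2 : ContDiff ℝ ∞ (fun q : ℝ × E n => sg q.1) := sg_smooth.comp contDiff_fst
    exact (A.contDiff.comp contDiff_snd).add ((contDiff_const.sub h2).smul h1)
  · intro x
    have h : sg 0 = 1 := by
      unfold sg
      rw [mul_zero, Real.smoothTransition.zero, sub_zero]
    show A x + (1 - sg 0) • FV K H (th r 0) x = A x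
    rw [h, sub_self, zero_smul, add_zero]
  · intro x
    have h : sg 1 = 0 := by
      unfold sg
      rw [Real.smoothTransition.one_of_one_le (by norm_num), sub_self]
    have h2 : th r 1 = 0 := by
      unfold th
      rw [Real.smoothTransition.one_of_one_le (by norm_num), sub_self, mul_zero]
    show A x + (1 - sg 1) • FV K H (th r 1) x = F x
    rw [h, h2, FV_zero, sub_zero, one_smul, hFH]
  · intro t x hx
    have h1 : FV K H (th r t) x = 0 := by
      unfold FV
      have h2 : ∀ s, K.k s • H (x + th r t • s) = 0 := by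
        intro s
        by_cases hs : K.k s = 0
        · rw [hs, zero_smul]
        · have h3 : ‖th r t • s‖ ≤ r := by
            rw [norm_smul, Real.norm_of_nonneg (th_nonneg hr t)]
            have h4 := K.lt hs
            have h5 := th_le hr t
            have h6 := th_nonneg hr t
            nlinarith [norm_nonneg s]
          have h4 := norm_sub_le (x + th r t • s) (th r t • s)
          rw [add_sub_cancel_right] at h4
          rw [hHd]
          show K.k s • (F (x + th r t • s) - A (x + th r t • s)) = 0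
          rw [hR _ (by linarith), sub_self, smul_zero]
      simp only [h2]
      exact integral_zero _ _
    show A x + (1 - sg t) • FV K H (th r t) x = A x
    rw [h1, smul_zero, add_zero]
  · intro t
    rcases le_or_gt t (1 / 2) with ht | ht
    · have h1 : th r t = r := by
        unfold th
        rw [Real.smoothTransition.zero_of_nonpos (by linarith), sub_zero, mul_one]
      simp only [h1]
      exact last K hr0 hA hH hcl' hr hδ (sg_nonneg t) (sg_le t)
    · have h1 : sg t = 0 := by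
        unfold sg
        rw [Real.smoothTransition.one_of_one_le (by linarith), sub_self]
      have h2 : (fun x => A x + (1 - sg t) • FV K H (th r t) x) = FV K F (th r t) := by
        funext x
        rw [h1, sub_zero, one_smul, FV_split K hH hFH]
      show Emb (fun x => A x + (1 - sg t) • FV K H (th r t) x)
      rw [h2]
      rcases (th_nonneg hr t).eq_or_lt with h3 | h3
      · have h4 : FV K F (th r t) = F := by
          funext x
          rw [← h3, FV_zero]
        rw [h4]
        constructor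
        · intro x y hxy
          have hfar := far K hA hH hFH hcl' (t := 0) (x := x) (y := y)
            (by rw [FV_zero, FV_zero]; exact hxy)
          obtain ⟨c, hc⟩ : ∃ c, c = (1 / 2 : ℝ) • (x + y) := ⟨_, rfl⟩
          obtain ⟨a, ha, hd'⟩ := hd c
          have e1 : x - c = (1 / 2 : ℝ) • (x - y) := by
            rw [hc]
            module
          have e2 : y - c = (1 / 2 : ℝ) • (y - x) := by
            rw [hc]
            module
          have b1 : ‖x - c‖ ≤ (1 + δ) * r := by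
            rw [e1, norm_smul]
            norm_num
            linarith
          have b2 : ‖y - c‖ ≤ (1 + δ) * r := by
            rw [e2, norm_smul, norm_sub_rev]
            norm_num
            linarith
          have h5 := (hd' x y b1 b2).1
          rw [hxy, sub_self, norm_zero] at h5
          by_contra hne
          have hpos : 0 < ‖x - y‖ := norm_pos_iff.2 (sub_ne_zero.2 hne)
          nlinarith
        · intro x w hw0 h0
          obtain ⟨a, ha, hd'⟩ := hd x
          refine deriv_lower' (hF.differentiable (by simp) x).hasFDerivAt ha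
            (r := (1 + δ) * r) (by nlinarith) (fun p q hp hq => (hd' p q hp hq).1)
            (unit_of_ne hw0) ?_
          rw [map_smul, h0, smul_zero]
      · exact mid K hr0 hA hF.continuous hH hFH hcl' hr hρ hd hN h3 (th_le hr t)

end

end Pool.Agent.U211.LK
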