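import Pool.Agent.U211.LK.Est
import Pool.Agent.U211.ISO.Path

/-!
# Injectivity of the mollification, local conditions
-/

set_option autoImplicit false

open Set Filter Topology Metric Function MeasureTheory
open scoped Manifold ContDiff

noncomputable section

namespace Pool.Agent.U211.LK

open Pool.Agent.Y522 Pool.Agent.U211.BL Pool.Agent.U211.BLV Pool.Agent.U211.SPH
  Pool.Agent.U211.ISO

variable {n d : ℕ} {r₀ : ℝ} (K : Ker n r₀)

variable {f : E n → E d} {w : E n} {m M B : ℝ}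

/-- bounds for the distances in the ball of radius `B` -/
def Bd (f : E n → E d) (m M B : ℝ) : Prop :=
  ∀ p q : E n, ‖p‖ ≤ B → ‖q‖ ≤ B → m * ‖p - q‖ ≤ ‖f p - f q‖ ∧ ‖f p - f q‖ ≤ M * ‖p - q‖

theorem RI_of_Bd (hm : 0 ≤ m) (hf : Bd f m M B) (hw : ‖w‖ = 1) {P : ℝ} (hP : 0 ≤ P)
    (hPB : P ≤ B) : RI f w (f (P • w) - f (-(P • w))) (M ^ 2 + m ^ 2) (M ^ 2 - m ^ 2) P B := by
  intro z hz
  have hz' : ‖rf w z‖ ≤ B := by rw [rf_norm hw]; exact hz
  have hPw : ‖P • w‖ = P := by rw [norm_smul, hw, mul_one, Real.norm_of_nonneg hP]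
  have hp : ‖P • w‖ ≤ B := by rw [hPw]; exact hPB
  have hp' : ‖-(P • w)‖ ≤ B := by rw [norm_neg]; exact hp
  have h0 := BLV.polar (f z) (f (rf w z)) (f (P • w)) (f (-(P • w)))
  have low : ∀ x y : E n, ‖x‖ ≤ B → ‖y‖ ≤ B → m ^ 2 * ‖x - y‖ ^ 2 ≤ ‖f x - f y‖ ^ 2 := by
    intro x y hx hy
    have h1 := (hf x y hx hy).1
    rw [← mul_pow]
    gcongr
  have up : ∀ x y : E n, ‖x‖ ≤ B → ‖y‖ ≤ B → ‖f x - f y‖ ^ 2 ≤ M ^ 2 * ‖x - y‖ ^ 2 := by
    intro x y hx hy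
    have h1 := (hf x y hx hy).2
    rw [← mul_pow]
    gcongr
  have e1 := low z _ hz hp'
  have e2 := low (rf w z) _ hz' hp
  have e3 := up z _ hz hp
  have e4 := up (rf w z) _ hz' hp'
  have d1 : ‖z - -(P • w)‖ ^ 2 = ‖z‖ ^ 2 + P ^ 2 + 2 * P * inner ℝ z w := by
    rw [sub_neg_eq_add, @norm_add_sq_real, hPw, inner_smul_right]
    ring
  have d2 : ‖rf w z - P • w‖ ^ 2 = ‖z‖ ^ 2 + P ^ 2 + 2 * P * inner ℝ z w := by
    rw [@norm_sub_sq_real, hPw, inner_smul_right, rf_norm hw, rf_inner hw]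
    ring
  have d3 : ‖z - P • w‖ ^ 2 = ‖z‖ ^ 2 + P ^ 2 - 2 * P * inner ℝ z w := by
    rw [@norm_sub_sq_real, hPw, inner_smul_right]
    ring
  have d4 : ‖rf w z - -(P • w)‖ ^ 2 = ‖z‖ ^ 2 + P ^ 2 - 2 * P * inner ℝ z w := by
    rw [sub_neg_eq_add, @norm_add_sq_real, hPw, inner_smul_right, rf_norm hw, rf_inner hw]
    ring
  rw [d1] at e1
  rw [d2] at e2
  rw [d3] at e3
  rw [d4] at e4
  linarith

theorem GF_hasFDerivAt (hf : Continuous f) (v : E n) :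
    ∃ D : E n →L[ℝ] E d, HasFDerivAt (GF K f) D v ∧ ∀ w, D w = DF K f w v := by
  obtain ⟨D, h1, h2⟩ := BLV.moll_hasFDerivAt K hf.locallyIntegrable one_pos v
  refine ⟨D, ?_, fun w => ?_⟩
  · have e1 : (fun y => ∫ s, K.k s • f (y + (1 : ℝ) • s)) = GF K f := by
      funext y
      unfold GF
      simp only [one_smul]
    rwa [e1] at h1
  · rw [h2 w]
    unfold DF
    simp only [one_smul, inv_one]

/-- the numerical condition -/
def NC (n : ℕ) (r₀ m M : ℝ) : Prop :=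
  (M ^ 2 - m ^ 2) ^ 2 * (1 + (Real.sqrt n / r₀) ^ 2) < (M ^ 2 + m ^ 2) ^ 2

theorem imm (hr0 : 0 < r₀) (hc : Continuous f) (hm : 0 < m) (hmM : m ≤ M) (hf : Bd f m M B)
    (hB : 1 ≤ B) (hN : NC n r₀ m M) (hw : ‖w‖ = 1) : DF K f w 0 ≠ 0 := by
  intro h0
  have hMm : 0 ≤ M ^ 2 - m ^ 2 := by nlinarith
  have h1 := small K hr0 hc hw hMm (RI_of_Bd hm.le hf hw zero_le_one hB) (τ := 0)
    (by rw [abs_zero, zero_add]; exact hB)
  rw [zero_smul, neg_zero, h0, add_zero, inner_zero_left] at h1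
  have hcc : 0 ≤ Real.sqrt n / r₀ := by positivity
  have h2 : (M ^ 2 - m ^ 2) * (Real.sqrt n / r₀) < M ^ 2 + m ^ 2 := by
    apply lt_of_pow_lt_pow_left₀ 2 (by positivity)
    unfold NC at hN
    nlinarith [sq_nonneg (M ^ 2 - m ^ 2)]
  linarith

theorem inj (hr0 : 0 < r₀) (hcf : Continuous f) (hm : 0 < m) (hmM : m ≤ M) (hf : Bd f m M B)
    (hN : NC n r₀ m M) (hw : ‖w‖ = 1) {μ : ℝ} (hμ0 : 0 < μ) (hB : μ + 1 ≤ B) :
    GF K f (μ • w) ≠ GF K f (-(μ • w)) := by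
  intro h0
  obtain ⟨P, hPd⟩ : ∃ P, P = Real.sqrt (1 + μ ^ 2) := ⟨_, rfl⟩
  have hP : 0 < P := by
    rw [hPd]
    positivity
  have hP2 : P ^ 2 = 1 + μ ^ 2 := by
    rw [hPd]
    exact Real.sq_sqrt (by positivity)
  have hPB : P ≤ B := by nlinarith
  obtain ⟨c, hc⟩ : ∃ c, c = Real.sqrt n / r₀ := ⟨_, rfl⟩
  have hc0 : 0 ≤ c := by rw [hc]; positivity
  have hMm : 0 ≤ M ^ 2 - m ^ 2 := by nlinarith
  have hMp : 0 < M ^ 2 + m ^ 2 := by positivity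
  unfold NC at hN
  rw [← hc] at hN
  obtain ⟨e, he⟩ : ∃ e, e = f (P • w) - f (-(P • w)) := ⟨_, rfl⟩
  have hRI := RI_of_Bd hm.le hf hw hP.le hPB
  rw [← he] at hRI
  by_cases hcase : (M ^ 2 - m ^ 2) * P * c < M ^ 2 + m ^ 2
  · obtain ⟨φ, hφ⟩ : ∃ φ : ℝ → ℝ, φ = fun τ =>
      innerSL ℝ e (GF K f (τ • w) - GF K f (-(τ • w))) := ⟨_, rfl⟩
    have hd : ∀ τ, HasDerivAt φ (innerSL ℝ e (DF K f w (τ • w) + DF K f w (-(τ • w)))) τ := by
      intro τ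
      obtain ⟨D1, h1, h2⟩ := GF_hasFDerivAt K hcf (τ • w)
      obtain ⟨D2, h3, h4⟩ := GF_hasFDerivAt K hcf (-(τ • w))
      have l1 : HasDerivAt (fun τ : ℝ => τ • w) w τ := by
        simpa using (hasDerivAt_id τ).smul_const w
      have l2 : HasDerivAt (fun τ : ℝ => -(τ • w)) (-w) τ := l1.neg
      have a1 : HasDerivAt (GF K f ∘ fun τ : ℝ => τ • w) (D1 w) τ :=
        HasFDerivAt.comp_hasDerivAt (f := fun τ : ℝ => τ • w) τ h1 l1
      have a2 : HasDerivAt (GF K f ∘ fun τ : ℝ => -(τ • w)) (D2 (-w)) τ :=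
        HasFDerivAt.comp_hasDerivAt (f := fun τ : ℝ => -(τ • w)) τ h3 l2
      have a3 := (innerSL ℝ e).hasFDerivAt.comp_hasDerivAt τ (a1.sub a2)
      rw [h2, map_neg, h4, sub_neg_eq_add] at a3
      rw [hφ]
      exact a3
    have hpos : ∀ τ, 0 ≤ τ → τ ≤ μ →
        0 < innerSL ℝ e (DF K f w (τ • w) + DF K f w (-(τ • w))) := by
      intro τ h1 h2
      have h3 := small K hr0 hcf hw hMm hRI (τ := τ) (by rw [abs_of_nonneg h1]; linarith)
      rw [← hc] at h3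
      rw [innerSL_apply_apply, real_inner_comm]
      refine lt_of_lt_of_le ?_ h3
      have h4 : P ^ 2 + 1 + τ ^ 2 ≤ 2 * P ^ 2 := by
        rw [hP2]
        nlinarith
      have h5 : (M ^ 2 - m ^ 2) * (P ^ 2 + 1 + τ ^ 2) * c ≤ (M ^ 2 - m ^ 2) * (2 * P ^ 2) * c := by
        gcongr
      have h6 : (M ^ 2 - m ^ 2) * (2 * P ^ 2) * c < 2 * (M ^ 2 + m ^ 2) * P := by
        have := mul_lt_mul_of_pos_right hcase (show 0 < 2 * P by positivity)
        nlinarith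
      linarith
    have hmono : StrictMonoOn φ (Icc 0 μ) := by
      apply strictMonoOn_of_deriv_pos (convex_Icc 0 μ)
      · exact fun τ _ => (hd τ).continuousAt.continuousWithinAt
      · intro τ hτ
        rw [interior_Icc] at hτ
        rw [(hd τ).deriv]
        exact hpos τ hτ.1.le hτ.2.le
    have h1 := hmono (left_mem_Icc.2 hμ0.le) (right_mem_Icc.2 hμ0.le) hμ0
    have h2 : φ 0 = 0 := by
      rw [hφ]
      simp
    have h3 : φ μ = 0 := by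
      rw [hφ]
      show innerSL ℝ e (GF K f (μ • w) - GF K f (-(μ • w))) = 0
      rw [h0, sub_self, map_zero]
    rw [h2, h3] at h1
    exact lt_irrefl _ h1
  · have h1 := big K hcf hw hMm hRI (μ := μ) (by rw [abs_of_pos hμ0]; exact hB)
    rw [h0, sub_self, inner_zero_left] at h1
    push Not at hcase
    have h2 : (M ^ 2 - m ^ 2) * P < (M ^ 2 + m ^ 2) * μ := by
      apply lt_of_pow_lt_pow_left₀ 2 (by positivity)
      have h3 : (M ^ 2 + m ^ 2) ^ 2 ≤ ((M ^ 2 - m ^ 2) * P * c) ^ 2 := by gcongr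
      have h4 : μ ^ 2 = P ^ 2 - 1 := by linarith
      have h5 := mul_lt_mul_of_pos_left hN (show 0 < P ^ 2 by positivity)
      rw [mul_pow, mul_pow, h4]
      nlinarith
    have h4 : (M ^ 2 - m ^ 2) * (μ ^ 2 + 1 + P ^ 2) / 2 = (M ^ 2 - m ^ 2) * P * P := by
      rw [show μ ^ 2 + 1 + P ^ 2 = 2 * P ^ 2 by rw [hP2]; ring]
      ring
    rw [h4] at h1
    nlinarith

end Pool.Agent.U211.LK
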